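import Pool.Agent.H575.AX.All
import Pool.Graph.R_pool_sql_team_seeded_3997aac3.Q95.CL.Far
import Pool.Graph.R_pool_sql_team_seeded_3997aac3.Q285.CL.WSc

/-!
Axisymmetric Navier-Stokes flows with swirl: an inflow towards the axis which exceeds the critical
size `2 ν / ρ` by less than the self-similar contraction rate `ρ / (2 (T - t))` is harmless.

`V` is `ℝ³` with the maximum norm, the axis is the third coordinate axis, `sg x = x₀² + x₁²` is the
square of the distance `ρ` to the axis, `circ v = x₀ v₁ - x₁ v₀` is the circulation `Γ = ρ v_θ` and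
`vort v` the vorticity `ω = curl v`.
-/

open MeasureTheory Set
open H459R3.NS Pool.Agent.W268.NS Pool.Agent.TH305.AX
open Pool.Agent.Q85.CL (Sing Blow WSl DSl)

set_option autoImplicit false

namespace Pool.Agent.Results.MP_09540e_an.InflowBelowSelfSimilar

/-- `ρ` times the radial component of the field `v`. -/
def radial (v : V → V) (x : V) : ℝ := x 0 * v x 0 + x 1 * v x 1

/-- The logarithm `log ((ν (T - t)) ^ (2 c) / ρ²)`; it is positive iff `ρ < (ν (T - t)) ^ c`. -/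
noncomputable def lg (ν T c t : ℝ) (x : V) : ℝ := Real.log ((ν * (T - t)) ^ (2 * c) / sg x)

/-- The point `(t, x)` is off the axis, `ρ < (ν (T - t)) ^ c`, the circulation `Γ` is larger than
`K lg ^ (-α)`, `ω_ρ = 0` (that is `∂_z Γ = 0`), `Γ ω_z > 0` (that is `Γ ∂_ρ Γ > 0`). -/
def Active (ν T c α K : ℝ) (u : ℝ → V → V) (t : ℝ) (x : V) : Prop :=
  0 < sg x ∧ sg x < (ν * (T - t)) ^ (2 * c) ∧ K * lg ν T c t x ^ (-α) < |circ (u t) x| ∧
    radial (vort (u t)) x = 0 ∧ 0 < circ (u t) x * vort (u t) x 2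

/-- The lower bound of the radial velocity:
`ρ u_ρ ≥ ν (-2 + 2 (α + 1) / lg) - (c / (T - t) + B(t)) ρ²`. -/
def Weak (ν T c α : ℝ) (B : ℝ → ℝ) (u : ℝ → V → V) (t : ℝ) (x : V) : Prop :=
  ν * (-2 + 2 * (α + 1) / lg ν T c t x) - (c / (T - t) + B t) * sg x ≤ radial (u t) x

/-- The admissible data: `B` continuous and integrable on `(0, T)`, `0 ≤ c < 1 / 2`, `α > 3 / 2`,
`K ≥ 0`, `T₀ < T`, `R > 0`. -/
def Adm (T c α K T₀ R : ℝ) (B : ℝ → ℝ) : Prop :=
  ContinuousOn B (Ioo 0 T) ∧ IntegrableOn B (Ioo 0 T) ∧ 0 ≤ c ∧ c < 1 / 2 ∧ 3 / 2 < α ∧ 0 ≤ K ∧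
    T₀ < T ∧ 0 < R

/-- For all admissible data there is an active point `(t, x)` with `T₀ < t < T` and `‖x - a‖ ≤ R` at
which the lower bound `Weak` of the radial velocity does not hold. -/
def StrongInflow (ν T : ℝ) (u : ℝ → V → V) (a : V) : Prop :=
  ∀ (c α K T₀ R : ℝ) (B : ℝ → ℝ), Adm T c α K T₀ R B →
    ∃ t ∈ Ioo 0 T, T₀ < t ∧ ∃ x, ‖x - a‖ ≤ R ∧ Active ν T c α K u t x ∧ ¬ Weak ν T c α B u t x

lemma local_inflow {ν T E : ℝ} {Ω : Set V} {u : ℝ → V → V} {p : ℝ → V → ℝ} (hν : 0 < ν)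
    (h : DSl ν T E Ω u p)
    (hax : ∀ t ∈ Ioo 0 T, ∀ (θ : ℝ), ∀ x ∈ Ω, rot θ x ∈ Ω → u t (rot θ x) = rot θ (u t x))
    {a : V} (ha : a ∈ Ω) (ha0 : a 0 = 0) (ha1 : a 1 = 0) (hs : Sing T u a) :
    StrongInflow ν T u a := by
  intro c α K T₀ R B ⟨h1, h2, h3, h4, h5, h6, h7, h8⟩
  obtain ⟨t, ht, hT, x, hx, hx0, hx1, hx2, hx3, hx4, hx5⟩ :=
    Pool.Agent.Q67.AXI.infl_D2 H575.AX.mainP H575.AX.tra hν h hax ha ha0 ha1 hs B c α K T₀ R
      h1 h2 h3 h4 h5 h6 h7 h8
  exact ⟨t, ht, hT, x, hx, ⟨hx0, hx1, hx2, hx3, hx4⟩, not_le.2 hx5⟩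

lemma sg_zero {x : V} (h0 : x 0 = 0) (h1 : x 1 = 0) : sg x = 0 := by
  unfold sg
  rw [h0, h1]
  norm_num

lemma zero_of_sg {x : V} (h : sg x = 0) : x 0 = 0 ∧ x 1 = 0 := by
  unfold sg at h
  constructor <;> nlinarith [sq_nonneg (x 0), sq_nonneg (x 1)]

/-- In a ball around a point of the axis the distance to the axis is small. -/
lemma sg_le {x a : V} {r : ℝ} (ha : sg a = 0) (h : ‖x - a‖ ≤ r) :
    sg x ≤ 2 * r ^ 2 := by
  obtain ⟨h0, h1⟩ := zero_of_sg ha
  have h2 : |x 0| ≤ r := by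
    have := (norm_le_pi_norm (x - a) 0).trans h
    simpa [h0] using this
  have h3 : |x 1| ≤ r := by
    have := (norm_le_pi_norm (x - a) 1).trans h
    simpa [h1] using this
  unfold sg
  have h4 : x 0 ^ 2 ≤ r ^ 2 := by rw [← sq_abs]; gcongr
  have h5 : x 1 ^ 2 ≤ r ^ 2 := by rw [← sq_abs]; gcongr
  linarith

/-- Let `ν > 0`.

First, let `u` be a smooth solution of the Navier-Stokes equations without force and with viscosity
`ν` on `(0, T) × Ω`, `Ω` open, with bounded energy, finite dissipation and integrable pressure, which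
is axisymmetric in `Ω`. Then `StrongInflow` holds at each singular point `a` of `Ω` on the axis (`u`
is unbounded in each neighbourhood of `(T, a)`).

Second, let `u` be a smooth axisymmetric solution on `(0, T) × ℝ³` with bounded energy, finite
dissipation and locally integrable pressure. If `u` is unbounded near the time `T` it has a singular
point, all the singular points are on the axis, and `StrongInflow` holds at each of them. So, if for
some admissible data `Weak` holds at all active points with `T₀ < t < T` and `0 < ρ < R`, then `u` is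
bounded near the time `T`. -/
theorem result (ν : ℝ) (hν : 0 < ν) :
    (∀ (T E : ℝ) (Ω : Set V) (u : ℝ → V → V) (p : ℝ → V → ℝ), DSl ν T E Ω u p →
      (∀ t ∈ Ioo 0 T, ∀ (θ : ℝ), ∀ x ∈ Ω, rot θ x ∈ Ω → u t (rot θ x) = rot θ (u t x)) →
      ∀ a ∈ Ω, sg a = 0 → Sing T u a → StrongInflow ν T u a) ∧
    ∀ (T E : ℝ) (u : ℝ → V → V) (p : ℝ → V → ℝ), WSl ν T E u p →
      (∀ t ∈ Ioo 0 T, Axi (u t)) →
      (Blow T u → ∃ a, Sing T u a) ∧
      (∀ a, Sing T u a → sg a = 0 ∧ StrongInflow ν T u a) ∧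
      ∀ (c α K T₀ R : ℝ) (B : ℝ → ℝ), Adm T c α K T₀ R B →
        (∀ t ∈ Ioo 0 T, T₀ < t → ∀ x, sg x < R ^ 2 → Active ν T c α K u t x →
          Weak ν T c α B u t x) → ¬ Blow T u := by
  refine ⟨fun T E Ω u p h hax a ha ha0 hs => local_inflow hν h hax ha (zero_of_sg ha0).1
    (zero_of_sg ha0).2 hs, fun T E u p h hax => ?_⟩
  have hB : Blow T u → ∃ a, Sing T u a := fun hB =>
    Pool.Agent.Q85.CL.sing_whole Pool.Agent.Q95.CL.far Pool.Agent.Q285.CL.wsc hν h hB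
  have hS : ∀ a, Sing T u a → sg a = 0 ∧ StrongInflow ν T u a := by
    intro a hs
    obtain ⟨h0, h1⟩ := Pool.Agent.Q67.AXI.axis_W H575.AX.tra H575.AX.who H575.AX.gr hν h hax hs
    exact ⟨sg_zero h0 h1, local_inflow hν (Pool.Agent.Q85.CL.whole_D h a)
      (fun t ht θ x _ _ => hax t ht θ x) (Metric.mem_ball_self (by norm_num)) h0 h1 hs⟩
  refine ⟨hB, hS, fun c α K T₀ R B hA hc hbl => ?_⟩
  obtain ⟨a, ha⟩ := hB hbl
  obtain ⟨ha0, hI⟩ := hS a ha
  obtain ⟨h1, h2, h3, h4, h5, h6, h7, h8⟩ := hA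
  obtain ⟨t, ht, hT, x, hx, hx1, hx2⟩ := hI c α K T₀ (R / 2) B ⟨h1, h2, h3, h4, h5, h6, h7, by linarith⟩
  have hsx := sg_le ha0 hx
  exact hx2 (hc t ht hT x (by nlinarith) hx1)

end Pool.Agent.Results.MP_09540e_an.InflowBelowSelfSimilar
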