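import Pool.Agent.H575.AX.All
import Pool.Graph.R_pool_sql_team_seeded_3997aac3.Q95.CL.Far
import Pool.Graph.R_pool_sql_team_seeded_3997aac3.Q285.CL.WSc

/-!
Axisymmetric Navier-Stokes flows with swirl: if the circulation is smaller near the axis than a
constant multiple `ν δ` of the viscosity, a singularity needs a strong OUTFLOW from the axis.

`V` is `ℝ³` with the maximum norm, the axis is the third coordinate axis, `sg x = x₀² + x₁²` is the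
square of the distance `ρ` to the axis, `circ v = x₀ v₁ - x₁ v₀` is the circulation `Γ = ρ v_θ` and
`vort v` the vorticity `ω = curl v`.
-/

open MeasureTheory Set
open H459R3.NS Pool.Agent.W268.NS Pool.Agent.TH305.AX
open Pool.Agent.Q85.CL (Sing Blow WSl DSl)

set_option autoImplicit false

namespace Pool.Agent.Results.MP_09540e_an.SmallSwirlOutflow

/-- `ρ` times the radial component of the field `v`. -/
def radial (v : V → V) (x : V) : ℝ := x 0 * v x 0 + x 1 * v x 1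

/-- The logarithm `log ((ν (T - t)) ^ (2 c) / ρ²)`; it is positive iff `ρ < (ν (T - t)) ^ c`. -/
noncomputable def lg (ν T c t : ℝ) (x : V) : ℝ := Real.log ((ν * (T - t)) ^ (2 * c) / sg x)

/-- The point `(t, x)` is off the axis, `ρ < (ν (T - t)) ^ c`, the circulation `Γ` is larger than
`ν δ`, `ω_ρ = 0` (that is `∂_z Γ = 0`), `Γ ω_z > 0` (that is `Γ ∂_ρ Γ > 0`). -/
def Active (ν T c δ : ℝ) (u : ℝ → V → V) (t : ℝ) (x : V) : Prop :=
  0 < sg x ∧ sg x < (ν * (T - t)) ^ (2 * c) ∧ ν * δ < |circ (u t) x| ∧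
    radial (vort (u t)) x = 0 ∧ 0 < circ (u t) x * vort (u t) x 2

/-- The lower bound `ρ u_ρ ≥ ν (-2 + 2 (α + 1) / lg) - (c / (T - t) + B(t)) ρ²`. -/
def Weak (ν T c α : ℝ) (B : ℝ → ℝ) (u : ℝ → V → V) (t : ℝ) (x : V) : Prop :=
  ν * (-2 + 2 * (α + 1) / lg ν T c t x) - (c / (T - t) + B t) * sg x ≤ radial (u t) x

/-- The upper bound `ρ u_ρ ≤ ν (2 - μ) + (c / (T - t) + B(t)) ρ²`. -/
def Tame (ν T μ c : ℝ) (B : ℝ → ℝ) (u : ℝ → V → V) (t : ℝ) (x : V) : Prop :=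
  radial (u t) x ≤ ν * (2 - μ) + (c / (T - t) + B t) * sg x

/-- The admissible data: `B` continuous and integrable on `(0, T)`, `0 ≤ c < 1 / 2`, `α > 0`,
`T₀ < T`, `R > 0`. -/
def Adm (T c α T₀ R : ℝ) (B : ℝ → ℝ) : Prop :=
  ContinuousOn B (Ioo 0 T) ∧ IntegrableOn B (Ioo 0 T) ∧ 0 ≤ c ∧ c < 1 / 2 ∧ 0 < α ∧ T₀ < T ∧ 0 < R

/-- For all admissible data there is a point `(t, x)` with `T₀ < t < T`, `0 < ρ < 1` and
`‖x - a‖ ≤ R` at which `Tame` (with the constant `c'`) fails or which is active and at which `Weak`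
fails. -/
def StrongFlow (ν T μ c' δ : ℝ) (u : ℝ → V → V) (a : V) : Prop :=
  ∀ (c α T₀ R : ℝ) (B : ℝ → ℝ), Adm T c α T₀ R B →
    ∃ t ∈ Ioo 0 T, T₀ < t ∧ ∃ x, ‖x - a‖ ≤ R ∧ 0 < sg x ∧ sg x < 1 ∧
      (¬ Tame ν T μ c' B u t x ∨ (Active ν T c δ u t x ∧ ¬ Weak ν T c α B u t x))

lemma local_flow {dl : ℝ → ℝ → ℝ} (hM : Pool.Agent.Q67.AXI.StmMainQ dl) {ν T E : ℝ} {Ω : Set V}
    {u : ℝ → V → V} {p : ℝ → V → ℝ} (hν : 0 < ν) (h : DSl ν T E Ω u p)
    (hax : ∀ t ∈ Ioo 0 T, ∀ (θ : ℝ), ∀ x ∈ Ω, rot θ x ∈ Ω → u t (rot θ x) = rot θ (u t x))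
    {a : V} (ha : a ∈ Ω) (ha0 : a 0 = 0) (ha1 : a 1 = 0) (hs : Sing T u a) {μ c' : ℝ} (hμ : 0 < μ)
    (hμ2 : μ < 2) (hc' : 0 ≤ c') : StrongFlow ν T μ c' (dl μ c' / 2) u a := by
  intro c α T₀ R B ⟨h1, h2, h3, h4, h5, h7, h8⟩
  obtain ⟨t, ht, hT, x, hx, hx0, hx1, hx2⟩ :=
    Pool.Agent.Q67.AXI.infl_D4 hM H575.AX.tra hν h hax ha ha0 ha1 hs hμ hμ2 hc' B c α T₀ R
      h1 h2 h3 h4 h5 h7 h8
  refine ⟨t, ht, hT, x, hx, hx0, hx1, ?_⟩
  rcases hx2 with hx2 | ⟨h9, h10, h11, h12, h13⟩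
  · exact Or.inl (not_le.2 hx2)
  · exact Or.inr ⟨⟨hx0, h9, h10, h11, h12⟩, not_le.2 h13⟩

lemma sg_zero {x : V} (h0 : x 0 = 0) (h1 : x 1 = 0) : sg x = 0 := by
  unfold sg
  rw [h0, h1]
  norm_num

lemma zero_of_sg {x : V} (h : sg x = 0) : x 0 = 0 ∧ x 1 = 0 := by
  unfold sg at h
  constructor <;> nlinarith [sq_nonneg (x 0), sq_nonneg (x 1)]

/-- In a ball around a point of the axis the distance to the axis is small. -/
lemma sg_le {x a : V} {r : ℝ} (ha : sg a = 0) (h : ‖x - a‖ ≤ r) : sg x ≤ 2 * r ^ 2 := by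
  obtain ⟨h0, h1⟩ := zero_of_sg ha
  have h2 : |x 0| ≤ r := by
    have := (norm_le_pi_norm (x - a) 0).trans h
    simpa [h0] using this
  have h3 : |x 1| ≤ r := by
    have := (norm_le_pi_norm (x - a) 1).trans h
    simpa [h1] using this
  unfold sg
  have h4 : x 0 ^ 2 ≤ r ^ 2 := by rw [← sq_abs]; gcongr
  have h5 : x 1 ^ 2 ≤ r ^ 2 := by rw [← sq_abs]; gcongr
  linarith

/-- There is a positive function `δ` on `(0, 2) × [0, ∞)` with the following properties, for all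
`ν > 0`, `0 < μ < 2`, `c' ≥ 0`; put `δ = δ(μ, c')`.

First, let `u` be a smooth solution of the Navier-Stokes equations without force and with viscosity
`ν` on `(0, T) × Ω`, `Ω` open, with bounded energy, finite dissipation and integrable pressure, which
is axisymmetric in `Ω`. Then `StrongFlow` holds at each singular point `a` of `Ω` on the axis (`u`
is unbounded in each neighbourhood of `(T, a)`).

Second, let `u` be a smooth axisymmetric solution on `(0, T) × ℝ³` with bounded energy, finite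
dissipation and locally integrable pressure. If `u` is unbounded near the time `T` it has a singular
point, all the singular points are on the axis, and `StrongFlow` holds at each of them. So, if for
some admissible data at all points with `T₀ < t < T` and `0 < ρ < R` the bound `Tame` holds, and
`Weak` at those of them which are active, then `u` is bounded near the time `T`. In particular this
is so if `|Γ| ≤ ν δ` and `ρ u_ρ ≤ ν (2 - μ) + (c' / (T - t) + B(t)) ρ²` for `T₀ < t < T`,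
`0 < ρ < R`. -/
theorem result : ∃ δ : ℝ → ℝ → ℝ, (∀ μ c', 0 < μ → μ < 2 → 0 ≤ c' → 0 < δ μ c') ∧
    ∀ ν μ c' : ℝ, 0 < ν → 0 < μ → μ < 2 → 0 ≤ c' →
    (∀ (T E : ℝ) (Ω : Set V) (u : ℝ → V → V) (p : ℝ → V → ℝ), DSl ν T E Ω u p →
      (∀ t ∈ Ioo 0 T, ∀ (θ : ℝ), ∀ x ∈ Ω, rot θ x ∈ Ω → u t (rot θ x) = rot θ (u t x)) →
      ∀ a ∈ Ω, sg a = 0 → Sing T u a → StrongFlow ν T μ c' (δ μ c') u a) ∧
    ∀ (T E : ℝ) (u : ℝ → V → V) (p : ℝ → V → ℝ), WSl ν T E u p →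
      (∀ t ∈ Ioo 0 T, Axi (u t)) →
      (Blow T u → ∃ a, Sing T u a) ∧
      (∀ a, Sing T u a → sg a = 0 ∧ StrongFlow ν T μ c' (δ μ c') u a) ∧
      (∀ (c α T₀ R : ℝ) (B : ℝ → ℝ), Adm T c α T₀ R B →
        (∀ t ∈ Ioo 0 T, T₀ < t → ∀ x, 0 < sg x → sg x < R ^ 2 → Tame ν T μ c' B u t x ∧
          (Active ν T c (δ μ c') u t x → Weak ν T c α B u t x)) → ¬ Blow T u) ∧
      ∀ (T₀ R : ℝ) (B : ℝ → ℝ), Adm T 0 1 T₀ R B →
        (∀ t ∈ Ioo 0 T, T₀ < t → ∀ x, 0 < sg x → sg x < R ^ 2 →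
          |circ (u t) x| ≤ ν * δ μ c' ∧ Tame ν T μ c' B u t x) → ¬ Blow T u := by
  obtain ⟨dl, hdl, hM⟩ := H575.AX.mainQ
  refine ⟨fun μ c' => dl μ c' / 2, fun μ c' h1 h2 h3 => half_pos (hdl μ c' h1 h2 h3),
    fun ν μ c' hν hμ hμ2 hc' => ?_⟩
  refine ⟨fun T E Ω u p h hax a ha ha0 hs => local_flow hM hν h hax ha (zero_of_sg ha0).1
    (zero_of_sg ha0).2 hs hμ hμ2 hc', fun T E u p h hax => ?_⟩
  have hB : Blow T u → ∃ a, Sing T u a := fun hB =>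
    Pool.Agent.Q85.CL.sing_whole Pool.Agent.Q95.CL.far Pool.Agent.Q285.CL.wsc hν h hB
  have hS : ∀ a, Sing T u a → sg a = 0 ∧ StrongFlow ν T μ c' (dl μ c' / 2) u a := by
    intro a hs
    obtain ⟨h0, h1⟩ := Pool.Agent.Q67.AXI.axis_W H575.AX.tra H575.AX.who H575.AX.gr hν h hax hs
    exact ⟨sg_zero h0 h1, local_flow hM hν (Pool.Agent.Q85.CL.whole_D h a)
      (fun t ht θ x _ _ => hax t ht θ x) (Metric.mem_ball_self (by norm_num)) h0 h1 hs hμ hμ2 hc'⟩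
  have hC : ∀ (c α T₀ R : ℝ) (B : ℝ → ℝ), Adm T c α T₀ R B →
      (∀ t ∈ Ioo 0 T, T₀ < t → ∀ x, 0 < sg x → sg x < R ^ 2 → Tame ν T μ c' B u t x ∧
        (Active ν T c (dl μ c' / 2) u t x → Weak ν T c α B u t x)) → ¬ Blow T u := by
    intro c α T₀ R B hA hc hbl
    obtain ⟨a, ha⟩ := hB hbl
    obtain ⟨ha0, hI⟩ := hS a ha
    obtain ⟨h1, h2, h3, h4, h5, h7, h8⟩ := hA
    obtain ⟨t, ht, hT, x, hx, hx0, -, hx1⟩ := hI c α T₀ (R / 2) B
      ⟨h1, h2, h3, h4, h5, h7, by linarith⟩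
    have hsx := sg_le ha0 hx
    obtain ⟨hc1, hc2⟩ := hc t ht hT x hx0 (by nlinarith)
    rcases hx1 with hx1 | ⟨hx1, hx2⟩
    · exact hx1 hc1
    · exact hx2 (hc2 hx1)
  exact ⟨hB, hS, hC, fun T₀ R B hA hc => hC 0 1 T₀ R B hA fun t ht hT x h0 h1 =>
    ⟨(hc t ht hT x h0 h1).2, fun hac => absurd hac.2.2.1 (not_lt.2 (hc t ht hT x h0 h1).1)⟩⟩

end Pool.Agent.Results.MP_09540e_an.SmallSwirlOutflow
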